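import Pool.Agent.MP_6a4325_al.H62.Base2

/-!
Row ALT: consequences of the finiteness of the orbits of all characters.
-/

set_option autoImplicit false

namespace Pool.Agent.MP_6a4325_al.H83

open Pool.Agent.MP_6a4325_al.H62

section Aux

variable {G : Type} [Group G]

/-- commutators with a fixed element, on an abelian normal subgroup -/
def cmH {B : Subgroup G} (hB : B.Normal) (hc : Cm B B) (g : G) : B →* G where
  toFun b := g * b * g⁻¹ * (b : G)⁻¹
  map_one' := by simp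
  map_mul' a b := by
    have h1 := hc _ (B.inv_mem a.2) _ (hB.conj_mem _ b.2 g)
    have h2 := hc _ (B.inv_mem a.2) _ (B.inv_mem b.2)
    calc g * (a * b) * g⁻¹ * ((a : G) * b)⁻¹
        = g * a * g⁻¹ * (g * b * g⁻¹ * ((b : G)⁻¹ * (a : G)⁻¹)) := by group
      _ = g * a * g⁻¹ * ((a : G)⁻¹ * (g * b * g⁻¹) * (b : G)⁻¹) := by
        rw [← h2, h1]; simp only [mul_assoc]
      _ = _ := by simp only [mul_assoc]

theorem cm_eq {B : Subgroup G} (hB : B.Normal) (hc : Cm B B) (g : G) :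
    cm B g = (cmH hB hc g).range := by
  refine le_antisymm ((Subgroup.closure_le _).2 ?_) ?_
  · rintro _ ⟨b, hb, rfl⟩
    exact ⟨⟨b, hb⟩, rfl⟩
  · rintro _ ⟨b, rfl⟩
    exact Subgroup.subset_closure ⟨b, b.2, rfl⟩

theorem ker_cmH {B : Subgroup G} (hB : B.Normal) (hc : Cm B B) (g : G) :
    (cmH hB hc g).ker = (Subgroup.centralizer {g}).subgroupOf B := by
  ext b
  rw [MonoidHom.mem_ker, Subgroup.mem_subgroupOf, Subgroup.mem_centralizer_singleton_iff]
  change g * b * g⁻¹ * (b : G)⁻¹ = 1 ↔ _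
  rw [mul_inv_eq_one, mul_inv_eq_iff_eq_mul, eq_comm]

theorem cmt_mem {B : Subgroup G} (hB : B.Normal) (g : G) {b : G} (hb : b ∈ B) :
    g * b * g⁻¹ * b⁻¹ ∈ B := B.mul_mem (hB.conj_mem b hb g) (B.inv_mem hb)

theorem ch_cmt {K : Type} [Field K] {B : Subgroup G} (hB : B.Normal) {ψ : G → K} (h : IsCh B ψ)
    {g b : G} (hb : b ∈ B) (e : ψ (g * b * g⁻¹) = ψ b) : ψ (g * b * g⁻¹ * b⁻¹) = 1 := by
  rw [h.2 _ (hB.conj_mem b hb g) _ (B.inv_mem hb), e, ← h.2 _ hb _ (B.inv_mem hb), mul_inv_cancel,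
    h.1]

theorem exists_lt_mem (N : Subgroup G) [N.FiniteIndex] {S : Set ℕ} (hS : S.Infinite) (g : ℕ → G) :
    ∃ i ∈ S, ∃ j ∈ S, i < j ∧ (g i)⁻¹ * g j ∈ N := by
  obtain ⟨i, hi, j, hj, hij, e⟩ := hS.exists_lt_map_eq_of_mapsTo
    (f := fun i => (g i : G ⧸ N)) (t := Set.univ) (fun _ _ => trivial) Set.finite_univ
  exact ⟨i, hi, j, hj, hij, QuotientGroup.eq.1 e⟩

end Aux

theorem orb1 : SCh → SOrb1 := by
  intro hCh p _ G _ B D Δ G₁ hB hc hO _ hG hP hΔ
  by_contra hn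
  have h0 : Δ.relIndex G₁ = 0 := by
    by_contra h1
    refine hn ⟨fun h2 => ?_⟩
    have h3 := Subgroup.relIndex_mul_index (inf_le_right : Δ ⊓ G₁ ≤ G₁)
    rw [Subgroup.inf_relIndex_right] at h3
    have h4 := Subgroup.index_dvd_of_le (inf_le_left : Δ ⊓ G₁ ≤ Δ)
    rw [h2, zero_dvd_iff, ← h3] at h4
    exact mul_ne_zero h1 hG.index_ne_zero h4
  have : Infinite (G₁ ⧸ Δ.subgroupOf G₁) := Subgroup.index_eq_zero_iff_infinite.1 h0
  let g : ℕ → G₁ := fun i => (Infinite.natEmbedding (G₁ ⧸ Δ.subgroupOf G₁) i).out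
  have hg : ∀ i j, i < j → ((g i)⁻¹ * g j : G) ∉ Δ := fun i j hij h => by
    have e : (g i : G₁ ⧸ Δ.subgroupOf G₁) = g j := QuotientGroup.eq.2 h
    simp only [g, QuotientGroup.out_eq'] at e
    exact hij.ne ((Infinite.natEmbedding _).injective e)
  let h : ℕ → G := fun n => (g n.unpair.1 : G)⁻¹ * g (n.unpair.1 + n.unpair.2 + 1)
  have h1 : ∀ n, h n ∈ G₁ := fun n => G₁.mul_mem (G₁.inv_mem (g _).2) (g _).2
  have h2 : ∀ n, cm B (h n) ≤ B := fun n => by
    rw [cm_eq hB hc]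
    rintro _ ⟨b, rfl⟩
    exact cmt_mem hB _ b.2
  let _ := hc.commGroup
  obtain ⟨χ, -, hχ⟩ := (hCh p (Kp p)).one B (D.subgroupOf B) (fun n => (cm B (h n)).subgroupOf B)
    (fun n c hcm => by
      rw [Subgroup.mem_subgroupOf, cm_eq hB hc] at hcm
      obtain ⟨b, hb⟩ := hcm
      obtain ⟨m, m0, m1, m2⟩ := hP _ (h1 n) b b.2
      refine ⟨m, m0, m1, ?_⟩
      rw [Subgroup.mem_subgroupOf, Subgroup.coe_pow, ← hb]
      exact m2)
    (fun n => by
      rw [Subgroup.relIndex_subgroupOf (h2 n)]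
      by_contra h3
      exact hg _ _ (by omega) (hΔ _ (h1 n) h3))
  obtain ⟨ψ, hψ, e⟩ := exists_isCh χ
  obtain ⟨N, hN, hf⟩ := hO ψ hψ
  obtain ⟨i, -, j, -, hij, hm⟩ := exists_lt_mem N Set.infinite_univ fun i => (g i : G)
  obtain ⟨c, hcm, hne⟩ := hχ (Nat.pair i (j - i - 1))
  rw [Subgroup.mem_subgroupOf, cm_eq hB hc] at hcm
  obtain ⟨b, hb⟩ := hcm
  have h4 : h (Nat.pair i (j - i - 1)) ∈ N := by
    simp only [h, Nat.unpair_pair]
    rwa [show i + (j - i - 1) + 1 = j by omega]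
  refine hne (Units.ext ?_)
  rw [← e, ← hb]
  exact ch_cmt hB hψ b.2 (hf _ h4 b b.2)

theorem orb2 : SCh → SOrb2 := by
  intro hCh p _ G _ B hB hc hO g b hb hlt hP
  by_contra hn
  push Not at hn
  let _ := hc.commGroup
  obtain ⟨χ, hχ⟩ := (hCh p (Kp p)).two B (fun i => ⟨_, cmt_mem hB (g i) (hb i)⟩) fun i => by
    refine ⟨fun e => hn i ?_, ?_⟩
    · have e1 : g i * b i * (g i)⁻¹ * (b i)⁻¹ = 1 := congrArg Subtype.val e
      rwa [mul_inv_eq_one, mul_inv_eq_iff_eq_mul] at e1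
    · obtain ⟨m, m0, m1, m2⟩ := hP i
      exact ⟨m, m0, m1, Subtype.ext m2⟩
  obtain ⟨ψ, hψ, e⟩ := exists_isCh χ
  obtain ⟨N, hN, hf⟩ := hO ψ hψ
  obtain ⟨i, -, j, hj, hij, hm⟩ := exists_lt_mem N hχ fun i => (g i)⁻¹
  refine hj (Units.ext ?_)
  rw [← e]
  refine ch_cmt hB hψ (hb j) ?_
  have h1 := hf _ (N.inv_mem hm) _ (hb j)
  rw [← h1]
  congr 1
  have h2 : (g i)⁻¹ * b j * g i = b j := by rw [mul_assoc, ← hlt i j hij, inv_mul_cancel_left]
  conv_lhs => rw [← h2]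
  group

theorem alt : SOrb1 → SOrb2 → SALT := by
  intro h1 h2 p _ G _ B G₁ hB hc hO hG hP
  let Δ : Subgroup G :=
    { carrier := {g | g ∈ G₁ ∧ (Subgroup.centralizer {g}).relIndex B ≠ 0}
      mul_mem' := fun {x y} hx hy => ⟨G₁.mul_mem hx.1 hy.1, fun e =>
        Subgroup.relIndex_inf_ne_zero hx.2 hy.2 (Subgroup.relIndex_eq_zero_of_le_left
          (fun z hz => by
            have z1 := Subgroup.mem_centralizer_singleton_iff.1 hz.1
            have z2 := Subgroup.mem_centralizer_singleton_iff.1 hz.2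
            rw [Subgroup.mem_centralizer_singleton_iff, ← mul_assoc, z1, mul_assoc, z2,
              mul_assoc]) e)⟩
      one_mem' := ⟨G₁.one_mem, by
        rw [Subgroup.relIndex_eq_one.2 fun z _ => Subgroup.mem_centralizer_singleton_iff.2
          (by rw [mul_one, one_mul])]
        exact one_ne_zero⟩
      inv_mem' := fun {x} hx => ⟨G₁.inv_mem hx.1, fun e => hx.2
        (Subgroup.relIndex_eq_zero_of_le_left (fun z hz =>
          Subgroup.mem_centralizer_singleton_iff.2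
            (show Commute z x from Subgroup.mem_centralizer_singleton_iff.1 hz).inv_right.eq) e)⟩ }
  have hΔ : Δ.FiniteIndex := h1 p G B ⊥ Δ G₁ hB hc hO bot_le hG hP fun g hg h => ⟨hg, by
    rwa [Subgroup.relIndex, ← ker_cmH hB hc, Subgroup.index_ker, ← cm_eq,
      ← Subgroup.relIndex_bot_left]⟩
  by_contra hn
  obtain ⟨f, hf, hlt⟩ := exists_seq_of_forall_finset_exists
    (fun x : G × G => x.1 ∈ Δ ∧ x.2 ∈ B ∧ x.1 * x.2 ≠ x.2 * x.1)
    (fun x y => x.1 * y.2 = y.2 * x.1) fun s hs => by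
      by_contra h3
      push Not at h3
      refine hn ⟨Δ, B ⊓ ⨅ x : s, Subgroup.centralizer {x.1.1}, hΔ, inf_le_left, ?_,
        fun b hb g hg => ?_⟩
      · rw [Subgroup.inf_relIndex_left]
        exact Subgroup.relIndex_iInf_ne_zero fun x => (hs x x.2).1.2
      · by_contra h4
        obtain ⟨x, hx, h5⟩ := h3 (g, b) ⟨hg, hb.1, fun e => h4 e.symm⟩
        exact h5 (Subgroup.mem_centralizer_singleton_iff.1
          (Subgroup.mem_iInf.1 hb.2 ⟨x, hx⟩)).symm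
  obtain ⟨i, hi⟩ := h2 p G B hB hc hO (fun i => (f i).1) (fun i => (f i).2) (fun i => (hf i).2.1)
    hlt fun i => hP _ (hf i).1.1 _ (hf i).2.1
  exact (hf i).2.2 hi

end Pool.Agent.MP_6a4325_al.H83
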