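import Pool.Agent.MP_6a4325_al.H84.Spec3

/-!
Bounded degrees for all subgroups give a subgroup of finite index with degrees at most one.
-/

set_option autoImplicit false

namespace Pool.Agent.MP_6a4325_al.H83

open Pool.Agent.MP_6a4325_al.H62 Pool.Agent.MP_6a4325_al.H84

theorem bd_equiv {p d : ℕ} {A B : Type} [Group A] [Group B] (f : A ≃* B) (h : Bd p A d) :
    Bd p B d := fun K _ _ _ n ρ hρ =>
  h K n (ρ.comp f.toMonoidHom) ((congrArg _ (f.surjective.range_comp ρ)).trans hρ)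

theorem bd2 : AiApi → SUp → SDiag → STens → SBd2 := by
  classical
  intro hA hU hD hT p _ G _ D h
  have ex : ∃ d, ∃ N : Subgroup G, N.FiniteIndex ∧ Bd p N d := ⟨D, ⊤, inferInstance, h ⊤⟩
  obtain ⟨N₀, f₀, b₀⟩ := Nat.find_spec ex
  refine ⟨N₀, f₀, by_contra fun c => ?_⟩
  obtain ⟨e, he, e1⟩ : ∃ e, Nat.find ex = e + 1 ∧ 1 ≤ e :=
    have : ¬Nat.find ex ≤ 1 := fun a => c fun K _ _ _ n ρ hρ => (b₀ K n ρ hρ).trans a
    ⟨Nat.find ex - 1, by omega, by omega⟩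
  have hm : ∀ N : Subgroup G, N.FiniteIndex → ¬Bd p N e := fun N a b =>
    Nat.find_min ex (by omega) ⟨N, a, b⟩
  rw [he] at b₀
  have h1 := hm N₀ f₀
  simp only [Bd, not_forall] at h1
  obtain ⟨K₁, _, _, _, n, ρ₁, a₁, n₁⟩ := h1
  obtain ⟨N, ρ', χ, fN, a', hd, hχ⟩ := hD p K₁ N₀ D n ρ₁ (fun N =>
    bd_equiv (N.equivMapOfInjective _ N₀.subtype_injective).symm (h _)) a₁
  have h2 : ¬Bd p N e := fun a => hm _ (finiteIndex_map_subtype N₀ f₀ N fN)
    (bd_equiv (N.equivMapOfInjective _ N₀.subtype_injective) a)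
  simp only [Bd, not_forall] at h2
  obtain ⟨K₂, _, _, _, m, τ, a₂, m₁⟩ := h2
  have : Nonempty (Fin m) := ⟨⟨0, by omega⟩⟩
  have iτ := hA.irr _ _ _ τ a₂
  obtain ⟨U, _, _, σ, φ, iσ, hφ, eq, fd⟩ :=
    hU K₂ N N₀ _ N.subtype N.subtype_injective (lin τ) iτ
  have := fd (by rwa [Subgroup.range_subtype]) inferInstance
  let b := Module.finBasis K₂ U
  have u1 := b₀ K₂ _ _ (hA.burn K₂ N₀ U _ b σ iσ)
  have u2 := LinearMap.finrank_le_finrank_of_injective hφ
  rw [Module.finrank_fin_fun] at u2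
  have sφ := (LinearMap.injective_iff_surjective_of_finrank_eq_finrank
    (by rw [Module.finrank_fin_fun]; omega)).1 hφ
  have iN : Irr (σ.comp N.subtype) := ⟨iσ.1, fun W hW => by
    rw [← Submodule.map_comap_eq_of_surjective sφ W]
    refine (iτ.2 (W.comap φ) fun g u hu => ?_).imp (fun a => by rw [a, Submodule.map_bot])
      fun a => by rw [a, Submodule.map_top, LinearMap.range_eq_top.2 sφ]
    rw [Submodule.mem_comap, eq g u]
    exact hW g _ hu⟩
  obtain ⟨K, _, _, _, ⟨s₁⟩, ⟨s₂⟩⟩ := hA.common p K₁ K₂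
  have a₃ := hA.map _ _ _ _ _ s₂ (hA.burn K₂ N U _ b _ iN)
  rw [mat, ← MonoidHom.comp_assoc, ← MonoidHom.comp_assoc] at a₃
  obtain ⟨ρ, hρ⟩ := hT K N₀ N n _ _ _ (fun i => s₁.toMonoidHom.comp (χ i))
    (hA.map _ _ _ _ ρ' s₁ a') a₃
    (fun g => (congrArg s₁.mapMatrix (hd g)).trans (Matrix.diagonal_map (map_zero s₁)))
    fun i j r hr a => by
      rw [hχ i j r hr fun g => s₁.injective (by
        rw [map_pow, map_pow]
        exact a g)]
  have := (Nat.mul_le_mul (not_le.1 n₁) ((not_le.1 m₁).trans_le u2)).trans (b₀ K _ ρ hρ)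
  exact absurd (Nat.le_of_mul_le_mul_left (this.trans (mul_one _).ge) e.succ_pos) (by omega)

end Pool.Agent.MP_6a4325_al.H83
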