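import Pool.Agent.MP_6a4325_al.H62.Base2

/-!
Row THE: a character of a plinth at which no conjugate of a given element vanishes.
-/

set_option autoImplicit false

namespace Pool.Agent.MP_6a4325_al.H83

open Pool.Agent.MP_6a4325_al.H62

/-- every number congruent to one modulo `q ^ a` is a power of `1 + q ^ a * w` modulo
`q ^ (a + i)` -/
theorem pow_app {q a : ℕ} (hq : q.Prime) (h2 : 2 < q) (ha : 0 < a) (w : ℤ) (hw : ¬ (q : ℤ) ∣ w)
    (t : ℤ) (i : ℕ) :
    ∃ n : ℕ, (q : ℤ) ^ (a + i) ∣ (1 + (q : ℤ) ^ a * w) ^ n - (1 + (q : ℤ) ^ a * t) := by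
  induction i with
  | zero => exact ⟨0, -t, by ring⟩
  | succ i ih =>
    obtain ⟨n, s, hs⟩ := ih
    have d1 : (q : ℤ) ∣ (q : ℤ) ^ a := dvd_pow_self _ ha.ne'
    have d2 : (q : ℤ) * (q : ℤ) ^ a * q ∣ ((q : ℤ) ^ a) ^ q := by
      rw [← pow_mul, show (q : ℤ) * (q : ℤ) ^ a * q = (q : ℤ) ^ (a + 2) by ring]
      exact pow_dvd_pow _ (by nlinarith)
    obtain ⟨y, hy⟩ := ZMod.exists_one_add_mul_pow_prime_pow_eq hq d1 d2 w i
    have hp : Prime (q : ℤ) := Nat.prime_iff_prime_int.1 hq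
    obtain ⟨u, v, huv⟩ := (hp.coprime_iff_not_dvd.2 hw)
    -- a natural number `m` with `s + m * w` divisible by `q`
    obtain ⟨m, r, hm⟩ : ∃ (m : ℕ) (r : ℤ), s + m * w = q * r := by
      have q0 : (q : ℤ) ≠ 0 := by exact_mod_cast hq.ne_zero
      refine ⟨((-s * v) % q).toNat, s * u - (-s * v) / q * w, ?_⟩
      rw [Int.toNat_of_nonneg (Int.emod_nonneg _ q0), Int.emod_def]
      linear_combination (-s) * huv
    obtain ⟨b, rfl⟩ : ∃ b, a = b + 1 := ⟨a - 1, by omega⟩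
    have key : ∀ m : ℕ, ∃ z : ℤ, (1 + (q : ℤ) ^ i * (q : ℤ) ^ (b + 1) * (w + q * y)) ^ m =
        1 + (q : ℤ) ^ (b + 1 + i) * (m * w + q * z) := fun m => by
      induction m with
      | zero => exact ⟨0, by simp⟩
      | succ m ih =>
        obtain ⟨z, hz⟩ := ih
        refine ⟨z + y + (q : ℤ) ^ (b + i) * (m * w + q * z) * (w + q * y), ?_⟩
        rw [pow_succ, hz]
        push_cast
        ring
    obtain ⟨z, hz⟩ := key m
    refine ⟨n + q ^ i * m, r + z + (q : ℤ) ^ b * (t + (q : ℤ) ^ i * s) * (m * w + q * z), ?_⟩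
    rw [pow_add _ n, pow_mul, hy, hz, sub_eq_iff_eq_add.1 hs]
    linear_combination (q : ℤ) ^ (b + 1 + i) * hm

theorem frob_fix {k : Type} [Field k] (p : ℕ) {c : k} {f : ℕ} (h : c ^ p ^ f = c) (n : ℕ) :
    c ^ p ^ (f * n) = c := by
  induction n with
  | zero => simp
  | succ n ih => rw [Nat.mul_succ, pow_add, pow_mul, ih, h]

theorem exists_frob (p : ℕ) [hp : Fact p.Prime] {k : Type} [Field k] [CharP k p] (hk : Absolute k)
    (c : k) : ∃ f, 0 < f ∧ c ^ p ^ f = c := by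
  by_cases h0 : c = 0
  · exact ⟨1, one_pos, by rw [h0, zero_pow (pow_pos hp.out.pos 1).ne']⟩
  obtain ⟨m, hm, e⟩ := isOfFinOrder_iff_pow_eq_one.1 (hk c h0)
  obtain ⟨j, m', h1, rfl⟩ := Nat.exists_eq_pow_mul_and_not_dvd hm.ne' p hp.out.ne_one
  have e1 : c ^ m' = 1 := by
    rw [mul_comm, pow_mul] at e
    have h3 : (c ^ m' - 1) ^ p ^ j = 0 := by rw [sub_pow_char_pow, e, one_pow, sub_self]
    exact sub_eq_zero.1 (pow_eq_zero_iff (pow_pos hp.out.pos j).ne' |>.1 h3)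
  have m0 : 0 < m' := Nat.pos_of_ne_zero fun e => h1 (by simp [e])
  refine ⟨m'.totient, Nat.totient_pos.2 m0, ?_⟩
  have h4 : p ^ m'.totient ≡ 1 [MOD m'] :=
    Nat.ModEq.pow_totient ((Nat.Prime.coprime_iff_not_dvd hp.out).2 h1)
  rw [pow_eq_pow_mod _ e1, h4, ← pow_eq_pow_mod _ e1, pow_one]

theorem exists_frob_fin (p : ℕ) [Fact p.Prime] {k ι : Type} [Field k] [CharP k p]
    (hk : Absolute k) (s : Finset ι) (c : ι → k) : ∃ f, 0 < f ∧ ∀ x ∈ s, c x ^ p ^ f = c x := by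
  classical
  choose f f0 hf using exists_frob p hk
  refine ⟨∏ x ∈ s, f (c x), Finset.prod_pos fun x _ => f0 _, fun x hx => ?_⟩
  rw [← Finset.mul_prod_erase s _ hx]
  exact frob_fix p (hf _) _

/-- sums of geometric sequences with distinct ratios -/
theorem geo_zero {k ι : Type} [Field k] (s : Finset ι) (c r : ι → k)
    (hr : ∀ x ∈ s, ∀ y ∈ s, r x = r y → x = y) (h : ∀ t : ℕ, ∑ x ∈ s, c x * r x ^ t = 0) :
    ∀ x ∈ s, c x = 0 := by
  have li := (linearIndependent_monoidHom (Multiplicative ℕ) k).comp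
    (fun x : s => powersHom k (r x)) fun x y e =>
      Subtype.ext (hr x x.2 y y.2 ((powersHom k).injective e))
  intro x hx
  refine Fintype.linearIndependent_iff.1 li (fun x : s => c x) ?_ ⟨x, hx⟩
  funext t
  rw [Finset.sum_apply, Pi.zero_apply, ← h t.toAdd, ← Finset.sum_coe_sort s]
  rfl

theorem red_eq {q : ℕ} [Fact q.Prime] {i j : ℕ} (h : i ≤ j) (x : ℤ_[q]) :
    PadicInt.toZModPow i x = ((PadicInt.toZModPow j x).val : ZMod (q ^ i)) := by
  rw [ZMod.natCast_val, PadicInt.cast_toZModPow i j h]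

theorem exists_sep {q : ℕ} [Fact q.Prime] {ι : Type} (s : Finset ι) (e : ι → ℤ_[q]) :
    ∃ i, ∀ x ∈ s, ∀ y ∈ s, PadicInt.toZModPow i (e x) = PadicInt.toZModPow i (e y) → e x = e y := by
  have h : ∀ x y : ℤ_[q], ∀ᶠ i in Filter.atTop,
      PadicInt.toZModPow i x = PadicInt.toZModPow i y → x = y := fun x y => by
    by_cases hxy : x = y
    · exact Filter.Eventually.of_forall fun _ _ => hxy
    · obtain ⟨i, hi⟩ := not_forall.1 (mt PadicInt.ext_of_toZModPow.1 hxy)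
      refine Filter.eventually_atTop.2 ⟨i, fun j hj e => (hi ?_).elim⟩
      rw [red_eq hj, red_eq hj y, e]
  exact ((Filter.eventually_all_finset s).2 fun x _ =>
    (Filter.eventually_all_finset s).2 fun y _ => h (e x) (e y)).exists

/-- a sum with separated exponents does not vanish at primitive roots of unity of a high order -/
theorem sum_ne (p : ℕ) [hp : Fact p.Prime] {k ι : Type} [Field k] [CharP k p] (hk : Absolute k)
    {q : ℕ} (hq : q.Prime) (hpq : p < q) (h2 : 2 < q) (s : Finset ι) (c : ι → k) {x₀ : ι}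
    (hx : x₀ ∈ s) (hc : c x₀ ≠ 0) :
    ∃ a : ℕ, ∀ (i : ℕ) (e : ι → ℕ), (∀ x ∈ s, ∀ y ∈ s, e x ≡ e y [MOD q ^ i] → x = y) →
      ∀ ξ : k, IsPrimitiveRoot ξ (q ^ (a + i)) → ∑ x ∈ s, c x * ξ ^ e x ≠ 0 := by
  obtain ⟨f, f0, hf⟩ := exists_frob_fin p hk s c
  have hP : 1 < p ^ (f * (q - 1)) := Nat.one_lt_pow (Nat.mul_pos f0 (by omega)).ne' hp.out.one_lt
  have hd : q ∣ p ^ (f * (q - 1)) - 1 := by
    have h1 : p ^ (q - 1) ≡ 1 [MOD q] := by
      rw [← Nat.totient_prime hq]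
      exact Nat.ModEq.pow_totient ((Nat.coprime_primes hp.out hq).2 hpq.ne)
    have h3 := h1.pow f
    rw [← pow_mul, one_pow, mul_comm] at h3
    exact (Nat.modEq_iff_dvd' hP.le).1 h3.symm
  obtain ⟨a, w, hw, haw⟩ := Nat.exists_eq_pow_mul_and_not_dvd (Nat.sub_pos_of_lt hP).ne' q hq.ne_one
  have ha : 0 < a := Nat.pos_of_ne_zero fun e => hw (by simpa [haw, e] using hd)
  have eP : p ^ (f * (q - 1)) = 1 + q ^ a * w := by omega
  refine ⟨a, fun i e he ξ hξ h0 => hc ?_⟩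
  have hη : IsPrimitiveRoot (ξ ^ q ^ a) (q ^ i) := hξ.pow (pow_pos hq.pos _) (pow_add _ _ _)
  have x0 : ξ ≠ 0 := hξ.ne_zero (pow_pos hq.pos _).ne'
  have := geo_zero s (fun x => c x * ξ ^ e x) (fun x => (ξ ^ q ^ a) ^ e x) (fun x hx y hy E => by
    refine he x hx y hy ?_
    rw [pow_eq_pow_mod (e x) hη.pow_eq_one, pow_eq_pow_mod (e y) hη.pow_eq_one] at E
    exact hη.pow_inj (Nat.mod_lt _ (pow_pos hq.pos _)) (Nat.mod_lt _ (pow_pos hq.pos _)) E)
    (fun t => ?_) x₀ hx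
  · exact (mul_eq_zero.1 this).resolve_right (pow_ne_zero _ x0)
  obtain ⟨n, hn⟩ := pow_app hq h2 ha w (by exact_mod_cast hw) t i
  have h5 : 1 + q ^ a * t ≡ p ^ (f * ((q - 1) * n)) [MOD q ^ (a + i)] := by
    rw [Nat.modEq_iff_dvd, ← mul_assoc, pow_mul, eP]
    exact_mod_cast hn
  have h6 : ξ ^ p ^ (f * ((q - 1) * n)) = ξ * (ξ ^ q ^ a) ^ t := by
    rw [pow_eq_pow_mod _ hξ.pow_eq_one, ← h5, ← pow_eq_pow_mod _ hξ.pow_eq_one, pow_add, pow_one,
      pow_mul]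
  have h7 := congrArg (· ^ p ^ (f * ((q - 1) * n))) h0
  simp only [sum_pow_char_pow, zero_pow (pow_pos hp.out.pos _).ne'] at h7
  rw [← h7]
  refine Finset.sum_congr rfl fun x hx => ?_
  rw [mul_pow, frob_fix p (hf x hx), ← pow_mul ξ (e x), mul_comm (e x), pow_mul, h6, mul_pow,
    mul_assoc, ← pow_mul _ t, ← pow_mul _ (e x), mul_comm t]

theorem thE : SEmb → SThE := by
  intro hE p hp k G _ _ _ _ hk A hA hC μ hμ hS
  obtain ⟨q, hq, hpq, h2, ι, l, hadd, hinj, hl⟩ := hE p G A hA hC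
  have i1 : ι 1 = 0 := by
    have := hadd 1 A.one_mem 1 A.one_mem
    rw [mul_one] at this
    exact left_eq_add.1 this
  have inj : ∀ a ∈ A, ∀ b ∈ A, ι a = ι b → a = b := fun a ha b hb e => by
    refine mul_inv_eq_one.1 (hinj _ (A.mul_mem ha (A.inv_mem hb)) ?_)
    rw [hadd a ha _ (A.inv_mem hb), e, ← hadd b hb _ (A.inv_mem hb), mul_inv_cancel, i1]
  obtain ⟨x₀, hx₀⟩ : μ.coeff.support.Nonempty := by
    rw [Finsupp.support_nonempty_iff]
    intro e
    exact hμ (by ext g; simp [e])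
  obtain ⟨a, ha⟩ := sum_ne p hk hq.out hpq h2 μ.coeff.support μ.coeff hx₀
    (Finsupp.mem_support_iff.1 hx₀)
  obtain ⟨i, hi⟩ := exists_sep μ.coeff.support ι
  have : NeZero (q : k) := ⟨fun e => by
    have h1 := (CharP.cast_eq_zero_iff k p q).1 e
    exact hpq.ne ((Nat.prime_dvd_prime_iff_eq hp.out hq.out).1 h1)⟩
  obtain ⟨ζ, hζ⟩ := HasEnoughRootsOfUnity.exists_primitiveRoot k (q ^ (a + i))
  refine ⟨fun x => ζ ^ (PadicInt.toZModPow (a + i) (ι x)).val, ⟨?_, fun x hx y hy => ?_⟩,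
    fun g => ?_⟩
  · simp [i1]
  · beta_reduce
    rw [hadd x hx y hy, map_add, ZMod.val_add, ← pow_eq_pow_mod _ hζ.pow_eq_one, pow_add]
  · let u : (ZMod (q ^ (a + i)))ˣ :=
      Units.map (PadicInt.toZModPow (p := q) (a + i)).toMonoidHom (l g)
    have h3 := ha i (fun x => (PadicInt.toZModPow (a + i) (ι x)).val) (fun x hx y hy e => by
      refine inj x (hS x hx) y (hS y hy) (hi x hx y hy ?_)
      rw [red_eq (Nat.le_add_left i a), red_eq (Nat.le_add_left i a) (ι y)]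
      exact (ZMod.natCast_eq_natCast_iff _ _ _).2 e) _
      (hζ.pow_of_coprime _ (ZMod.val_coe_unit_coprime u))
    refine fun e => h3 ?_
    rw [← e, evc, Finsupp.sum]
    refine Finset.sum_congr rfl fun x hx => ?_
    rw [hl g x (hS x hx), map_mul, ZMod.val_mul, ← pow_eq_pow_mod _ hζ.pow_eq_one, pow_mul,
      smul_eq_mul]
    rfl

end Pool.Agent.MP_6a4325_al.H83
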